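import Mathlib
import Pool.Agent.MPcf641d.Main

/-!
# `MP_cf641d_an`, Q1: `ℝ^d` with the Euclidean distance is Lipschitz-free rigid for every `d ≥ 2`

The proof: for a surjective linear isometry `T` of `F(ℝ^d)` one considers the operator
`U h = T^*(h ∘ g)`, where `⟨k, g(x)⟩ = (T^{-1})^*⟨k, ·⟩ (x)`; `g` is `1`-Lipschitz, `U` fixes linear
functions and preserves slope inequalities in every direction. Ridge functions with one kink
are shown to be mapped to ridge functions with one kink, whose position is an affine function with
a slope `a ≠ 0` common to all directions; hence `U h (x) = a⁻¹ (h (a x + p) - h p)` for `C¹`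
Lipschitz `h` and then for all Lipschitz `h`, which gives `T`.
-/

namespace Pool.Agent.Results.MP_cf641d_an.EuclideanRigid

/-- For every `d ≥ 2`, every surjective linear isometry of the Lipschitz-free space of the
Euclidean space `ℝ^d` is `ε T_φ` with `ε = ±1` and `φ` a surjective dilation of `ℝ^d`. -/
theorem result (d : ℕ) (hd : 2 ≤ d) :
    Pool.Agent.MPcf641d.LipschitzFreeRigid (EuclideanSpace ℝ (Fin d)) :=
  Pool.Agent.MPcf641d.rigid_of_finrank (by simpa using hd)

end Pool.Agent.Results.MP_cf641d_an.EuclideanRigid
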